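import Pool.Agent.FrobDom.Complete
import Pool.Agent.FrobDom.Exist

/-! Frobenius closed parameter ideals of complete local domains whose Frobenius powers are not
Frobenius closed. -/

set_option autoImplicit false

namespace Pool.Agent.Results.MP_a45f4e_ag.CompleteDomains

open Pool.Agent.FrobDom

/-- `R` is a complete Noetherian local ring of characteristic `p` and of dimension two which has a
parameter ideal `(x, y)` such that `(x, y)` is Frobenius closed, but `(x^q, y^q)` is not Frobenius
closed for all `q = p^e`, `e ≥ 1`. Here `FClosed p x y` says that `(x, y)` is Frobenius closed: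
`r^q ∈ (x^q, y^q)` for some `q = p^n` implies `r ∈ (x, y)`. -/
def Example (p : ℕ) (R : Type) [CommRing R] : Prop :=
  IsNoetherianRing R ∧ CharP R p ∧ ringKrullDim R = 2 ∧
    ∃ (_ : IsLocalRing R) (x y : R), IsAdicComplete (IsLocalRing.maximalIdeal R) R ∧
      (Ideal.span {x, y}).radical = IsLocalRing.maximalIdeal R ∧ FClosed p x y ∧
      ∀ e : ℕ, 1 ≤ e → ¬ FClosed p (x ^ p ^ e) (y ^ p ^ e)

theorem general (p : ℕ) (hp : p.Prime) (k L : Type) [Field k] [CommRing L] [Algebra k L]
    [CharP k p] [Module.Finite k L] [Nontrivial L]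
    (hL : ∀ s : L, (∃ a : k, algebraMap k L a = s ^ p) → ∃ a : k, algebraMap k L a = s)
    (c₁ c₂ : L →ₗ[k] k) (h1 : c₁ 1 = 0) (h2 : c₂ 1 = 0)
    (hc : ∀ a b : k, ∃ s : L, c₁ s = a ∧ c₂ s = b) : Example p (Rg c₁ c₂) := by
  have hloc : IsLocalRing (Rg c₁ c₂) := isLocalRing_Rg
  have hnoeth : IsNoetherianRing (Rg c₁ c₂) := isNoetherianRing_Rg h1 h2
  refine ⟨hnoeth, charP_Rg p, le_antisymm (dim_le h1 h2 hc) (dim_ge h1 h2), hloc, xx c₁ h2,
    yy c₂ h1, complete h1 h2 hc, radical_eq h1 h2 hc, closed p hp h1 h2 hc hL, ?_⟩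
  intro e he hcl
  have hq : 2 ≤ p ^ e := hp.two_le.trans (Nat.le_self_pow (by omega) p)
  obtain ⟨z, hz1, hz2⟩ := not_closed p hp h1 h2 hc (p ^ e) hq
  refine hz2 (hcl z 1 ?_)
  rw [pow_one]
  exact hz1

/-- **Main result.** (1) For every prime `p` there is a complete local domain as in `Example`.

(2) Let `k` be a field of characteristic `p` and `L` a commutative `k`-algebra of finite dimension
at least three such that `s ^ p ∈ k` implies `s ∈ k` for all `s ∈ L` (for instance a
separable field extension, or `k × k × k`). There are linear functionals `c₁, c₂ : L → k`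
such that `R = {f ∈ L⟦x,y⟧ : f(0) ∈ k, c₂ (f_x(0)) + c₁ (f_y(0)) = 0}` is as in `Example`; `R` is
reduced, and a domain if `L` is a domain.

(3) The hypothesis of (2) holds for finite separable field extensions and for `k × k × k`. -/
theorem result :
    (∀ p : ℕ, p.Prime → ∃ (R : Type) (_ : CommRing R), IsDomain R ∧ Example p R) ∧
    (∀ p : ℕ, p.Prime → ∀ (k L : Type) [Field k] [CommRing L] [Algebra k L] [CharP k p]
      [Module.Finite k L], 3 ≤ Module.finrank k L →
      (∀ s : L, (∃ a : k, algebraMap k L a = s ^ p) → ∃ a : k, algebraMap k L a = s) →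
      ∃ c₁ c₂ : L →ₗ[k] k, Example p (Rg c₁ c₂) ∧ IsReduced (Rg c₁ c₂) ∧
        (IsDomain L → IsDomain (Rg c₁ c₂))) ∧
    (∀ p : ℕ, p.Prime → ∀ (k : Type) [Field k] [CharP k p],
      (∀ s : k × k × k, (∃ a : k, algebraMap k (k × k × k) a = s ^ p) →
        ∃ a : k, algebraMap k (k × k × k) a = s) ∧
      ∀ (L : Type) [Field L] [Algebra k L] [Algebra.IsSeparable k L] (s : L),
        (∃ a : k, algebraMap k L a = s ^ p) → ∃ a : k, algebraMap k L a = s) := by
  have main : ∀ p : ℕ, p.Prime → ∀ (k L : Type) [Field k] [CommRing L] [Algebra k L] [CharP k p]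
      [Module.Finite k L], 3 ≤ Module.finrank k L →
      (∀ s : L, (∃ a : k, algebraMap k L a = s ^ p) → ∃ a : k, algebraMap k L a = s) →
      ∃ c₁ c₂ : L →ₗ[k] k, Example p (Rg c₁ c₂) ∧ IsReduced (Rg c₁ c₂) ∧
        (IsDomain L → IsDomain (Rg c₁ c₂)) := by
    intro p hp k L _ _ _ _ _ h3 hL
    have : Nontrivial L := by
      by_contra h
      rw [not_nontrivial_iff_subsingleton] at h
      rw [Module.finrank_zero_of_subsingleton] at h3
      omega
    obtain ⟨c₁, c₂, h1, h2, hc⟩ := exists_functionals k L h3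
    have : IsReduced L := isReduced_of_root (k := k) p hp hL
    exact ⟨c₁, c₂, general p hp k L hL c₁ c₂ h1 h2 hc, isReduced_Rg, fun _ => isDomain_Rg⟩
  refine ⟨?_, main, ?_⟩
  · intro p hp
    have : Fact p.Prime := ⟨hp⟩
    have h3 : Module.finrank (ZMod p) (GaloisField p 3) = 3 := GaloisField.finrank p (by norm_num)
    obtain ⟨c₁, c₂, hE, -, hd⟩ := main p hp (ZMod p) (GaloisField p 3) h3.ge
      (root_of_separable (ZMod p) (GaloisField p 3) p hp)
    exact ⟨Rg c₁ c₂, inferInstance, hd inferInstance, hE⟩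
  · intro p hp k _ _
    exact ⟨root_of_prod k p hp, fun L _ _ _ => root_of_separable k L p hp⟩

end Pool.Agent.Results.MP_a45f4e_ag.CompleteDomains
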